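import Pool.Agent.H8.UB.Targets

/-!
# Automorphisms of algebraically closed fields (row AUT of the board ubd_modules)
-/

set_option autoImplicit false

open scoped Cardinal

namespace Pool.Agent.H75.UB

open Pool.Agent.H8.UB Pool.Agent.H56.UDs

/-- Two uncountable algebraically closed extensions of a countable domain which have the same
cardinality are isomorphic over the domain. -/
theorem ext_iso (R K L : Type) [CommRing R] [Nontrivial R] [Field K] [Field L] [IsAlgClosed K]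
    [IsAlgClosed L] [Algebra R K] [Algebra R L] [FaithfulSMul R K] [FaithfulSMul R L]
    (hR : #R ≤ Cardinal.aleph0) (hK : Cardinal.aleph0 < #K) (hKL : #K = #L) :
    ∃ σ : K ≃+* L, ∀ r, σ (algebraMap R K r) = algebraMap R L r := by
  obtain ⟨ι, v, hv⟩ := exists_isTranscendenceBasis' R K
  obtain ⟨κ, w, hw⟩ := exists_isTranscendenceBasis' R L
  have h1 : #K = #ι := IsAlgClosed.cardinal_eq_cardinal_transcendence_basis_of_aleph0_lt' v hv hR hK
  have h2 : #L = #κ :=
    IsAlgClosed.cardinal_eq_cardinal_transcendence_basis_of_aleph0_lt' w hw hR (hKL ▸ hK)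
  have h3 : #ι = #κ := by rw [← h1, ← h2, hKL]
  obtain ⟨e⟩ := Cardinal.eq.1 h3
  have i1 := IsAlgClosed.isAlgClosure_of_transcendence_basis v hv
  have i2 := IsAlgClosed.isAlgClosure_of_transcendence_basis w hw
  obtain ⟨g⟩ : Nonempty (Algebra.adjoin R (Set.range v) ≃ₐ[R] Algebra.adjoin R (Set.range w)) :=
    ⟨(hv.1.aevalEquiv.symm.trans (MvPolynomial.renameEquiv R e)).trans hw.1.aevalEquiv⟩
  refine ⟨IsAlgClosure.equivOfEquiv K L g.toRingEquiv, fun r => ?_⟩
  have h4 : algebraMap R K r = algebraMap (Algebra.adjoin R (Set.range v)) K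
      (algebraMap R (Algebra.adjoin R (Set.range v)) r) := rfl
  rw [h4, IsAlgClosure.equivOfEquiv_algebraMap]
  have h5 : g.toRingEquiv (algebraMap R (Algebra.adjoin R (Set.range v)) r) =
      algebraMap R (Algebra.adjoin R (Set.range w)) r := g.commutes r
  rw [h5]
  rfl

theorem pf_AUT : T_AUT := by
  intro K _ _ hK N x y hxy
  obtain ⟨I, hI⟩ : ∃ I : Ideal (MvPolynomial (Fin N) ℤ),
    I = RingHom.ker (MvPolynomial.aeval x : MvPolynomial (Fin N) ℤ →ₐ[ℤ] K).toRingHom := ⟨_, rfl⟩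
  have memI : ∀ P, P ∈ I ↔ MvPolynomial.aeval x P = 0 := by
    intro P
    rw [hI]
    exact Iff.rfl
  obtain ⟨f, hf⟩ : ∃ f : (MvPolynomial (Fin N) ℤ ⧸ I) →+* K,
      ∀ P, f (Ideal.Quotient.mk I P) = MvPolynomial.aeval x P :=
    ⟨Ideal.Quotient.lift I (MvPolynomial.aeval x : MvPolynomial (Fin N) ℤ →ₐ[ℤ] K).toRingHom
      (fun a ha => (memI a).1 ha), fun P => rfl⟩
  obtain ⟨g, hg⟩ : ∃ g : (MvPolynomial (Fin N) ℤ ⧸ I) →+* K,
      ∀ P, g (Ideal.Quotient.mk I P) = MvPolynomial.aeval y P :=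
    ⟨Ideal.Quotient.lift I (MvPolynomial.aeval y : MvPolynomial (Fin N) ℤ →ₐ[ℤ] K).toRingHom
      (fun a ha => (hxy a).1 ((memI a).1 ha)), fun P => rfl⟩
  have hfi : Function.Injective f := by
    rw [injective_iff_map_eq_zero]
    intro a ha
    obtain ⟨P, rfl⟩ := Ideal.Quotient.mk_surjective a
    rw [hf] at ha
    exact Ideal.Quotient.eq_zero_iff_mem.2 ((memI P).2 ha)
  have hgi : Function.Injective g := by
    rw [injective_iff_map_eq_zero]
    intro a ha
    obtain ⟨P, rfl⟩ := Ideal.Quotient.mk_surjective a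
    rw [hg] at ha
    exact Ideal.Quotient.eq_zero_iff_mem.2 ((memI P).2 ((hxy P).2 ha))
  have hcard : #(MvPolynomial (Fin N) ℤ ⧸ I) ≤ Cardinal.aleph0 := by
    refine (Cardinal.mk_le_of_surjective Ideal.Quotient.mk_surjective).trans ?_
    refine (MvPolynomial.cardinalMk_le_max).trans ?_
    rw [Cardinal.mk_int]
    simp
  have hKc : Cardinal.aleph0 < #K := by
    rw [← not_le, Cardinal.mk_le_aleph0_iff]
    exact hK
  have hnt : Nontrivial (MvPolynomial (Fin N) ℤ ⧸ I) := f.domain_nontrivial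
  obtain ⟨σ, hσ⟩ := @ext_iso (MvPolynomial (Fin N) ℤ ⧸ I) K K _ _ _ _ _ _ f.toAlgebra g.toAlgebra
    (@FaithfulSMul.mk _ _ f.toAlgebra.toSMul (fun {a b} h => hfi (by
      have h1 := h 1
      rw [@Algebra.smul_def _ _ _ _ f.toAlgebra, @Algebra.smul_def _ _ _ _ f.toAlgebra, mul_one,
        mul_one] at h1
      exact h1)))
    (@FaithfulSMul.mk _ _ g.toAlgebra.toSMul (fun {a b} h => hgi (by
      have h1 := h 1
      rw [@Algebra.smul_def _ _ _ _ g.toAlgebra, @Algebra.smul_def _ _ _ _ g.toAlgebra, mul_one,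
        mul_one] at h1
      exact h1)))
    hcard hKc rfl
  refine ⟨σ, fun i => ?_⟩
  have h1 := hσ (Ideal.Quotient.mk I (MvPolynomial.X i))
  have h2 : σ (f (Ideal.Quotient.mk I (MvPolynomial.X i))) =
      g (Ideal.Quotient.mk I (MvPolynomial.X i)) := h1
  rw [hf, hg, MvPolynomial.aeval_X, MvPolynomial.aeval_X] at h2
  exact h2

end Pool.Agent.H75.UB
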