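import Pool.Agent.H8.UB.Targets

/-!
# Change of rings for the lattice of finitely generated subfunctors (row CDM of the board
ubd_modules)
-/

set_option autoImplicit false

open CategoryTheory

namespace Pool.Agent.H75.UB

open Pool.Agent.H8.UB Pool.Agent.H56.UDs

variable {S T : Type} [Ring S] [Ring T]

/-- The matrix condition is preserved by homomorphisms. -/
theorem MC_map (f : S →+* T) {c d : Cd S} (h : MC c d) : MC (c.map f) (d.map f) := by
  obtain ⟨p, q, z, h1, h2⟩ := h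
  refine ⟨fun i => f (p i), fun i t => f (q i t), fun j l => f (z j l), fun j => ?_,
    fun j t => ?_⟩
  · have h3 := congrArg f (h1 j)
    rw [map_add, map_sum, map_sum] at h3
    simp only [map_mul] at h3
    exact h3
  · have h3 := congrArg f (h2 j t)
    rw [map_sum, map_sum] at h3
    simp only [map_mul] at h3
    exact h3

theorem pf_CDM (hCDG : T_CDG) (hCDE : T_CDE) (hCDL : T_CDL) : T_CDM := by
  intro S T _ _ _ _ _ _ _ f hf
  have key : ∀ c d : Cd S, (c.map f).fn ≤ (d.map f).fn ↔ c.fn ≤ d.fn := by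
    intro c d
    rw [(hCDG S).2 c d, (hCDG T).2]
    exact ⟨hf c d, MC_map f⟩
  have key' : ∀ c d : Cd S, c.fn = d.fn → (c.map f).fn = (d.map f).fn := fun c d h =>
    le_antisymm ((key c d).2 h.le) ((key d c).2 h.ge)
  choose cd hcd using fun x : LL (UF S) => hCDE S x.1 x.2
  obtain ⟨e, he⟩ : ∃ e : LL (UF S) → LL (UF T), ∀ x, (e x).1 = ((cd x).map f).fn :=
    ⟨fun x => ⟨((cd x).map f).fn, (hCDG T).1 _⟩, fun x => rfl⟩
  have hle : ∀ x y, e x ≤ e y ↔ x ≤ y := by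
    intro x y
    have h1 : e x ≤ e y ↔ (e x).1 ≤ (e y).1 := Iff.rfl
    have h2 : x ≤ y ↔ x.1 ≤ y.1 := Iff.rfl
    rw [h1, h2, he, he, key, hcd, hcd]
  have hcode : ∀ (c : Cd S) (x : LL (UF S)), c.fn = x.1 → (e x).1 = (c.map f).fn := by
    intro c x h
    rw [he]
    exact key' _ _ (by rw [hcd, h])
  obtain ⟨hinf, hsup, hbot, htop, hmap⟩ := hCDL S
  obtain ⟨minf, msup, mbot, mtop⟩ := hmap T f
  obtain ⟨hinf', hsup', hbot', htop', -⟩ := hCDL T
  refine ⟨e, ?_, ?_, hle, ?_, ?_, ?_⟩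
  · intro x y
    apply Subtype.ext
    have h1 : (e x ⊓ e y).1 = (e x).1 ⊓ (e y).1 := rfl
    have h2 : (x ⊓ y).1 = x.1 ⊓ y.1 := rfl
    rw [h1, hcode ((cd x).inf (cd y)) (x ⊓ y) (by rw [hinf, hcd, hcd, h2]), minf, hinf', he, he]
  · intro x y
    apply Subtype.ext
    have h1 : (e x ⊔ e y).1 = (e x).1 ⊔ (e y).1 := rfl
    have h2 : (x ⊔ y).1 = x.1 ⊔ y.1 := rfl
    rw [h1, hcode ((cd x).sup (cd y)) (x ⊔ y) (by rw [hsup, hcd, hcd, h2]), msup, hsup', he, he]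
  · apply Subtype.ext
    have h1 : (⊥ : LL (UF T)).1 = ⊥ := rfl
    have h2 : (⊥ : LL (UF S)).1 = ⊥ := rfl
    rw [h1, hcode (Cd.bot S) ⊥ (by rw [hbot, h2]), mbot, hbot']
  · apply Subtype.ext
    have h1 : (⊤ : LL (UF T)).1 = ⊤ := rfl
    have h2 : (⊤ : LL (UF S)).1 = ⊤ := rfl
    rw [h1, hcode (Cd.top S) ⊤ (by rw [htop, h2]), mtop, htop']
  · intro c
    refine ⟨(hCDG S).1 c, (hCDG T).1 _, Subtype.ext ?_⟩
    exact hcode c _ rfl

end Pool.Agent.H75.UB
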